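import Mathlib
import Pool.Agent.Y36.LG.Sphere

/-!
# MP_ed39a4_al: connection thickness growing faster than any given function

For every function `f` there is a two-generated one-ended group `G`, a semidirect product of a
locally finite group by the integers, such that for every finite generating set `S` of `G` the
connection thickness of the Cayley graph satisfies `th(n) > f(n)` for infinitely many `n`.
-/

set_option autoImplicit false

namespace Pool.Agent.Results.MP_ed39a4_al.ThicknessAboveAnyFunction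

open Pool.Agent.Helper376.DL (Ball ball_succ ball_mono ball_add ball_mono_succ cay_connected
  dist_le_iff mem_ball_dist)
open Pool.Agent.Helper376.Lac (Joined Joined.mono Joined.trans Joined.single Joined.refine SG WG Box
  exists_scale SG_one SG_inv SG_finite finite_subset_box ball_fin ball_subset_ball ball_inv'
  box_connected box_finite WG_mono exists_decomp eta_WG ft_zpow_ball)
open Pool.Agent.Y36.LG
open Relation

section defs

variable {G : Type} [Group G]

/-- The Cayley graph of `G` with respect to the finite set `S`: two distinct elements are adjacent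
when they differ by right multiplication by an element of `S` or of its inverses. -/
def cayleyGraph (S : Finset G) : SimpleGraph G :=
  SimpleGraph.fromRel (fun a b : G => a⁻¹ * b ∈ S)

/-- Word length: distance to `1` in the Cayley graph. -/
noncomputable def wordLength (S : Finset G) (g : G) : ℕ := (cayleyGraph S).dist 1 g

/-- The complement of the ball `B(n-1)`. -/
def outside (S : Finset G) (n : ℕ) : Set G := {g | n ≤ wordLength S g}

/-- One-endedness seen in the Cayley graph: for each `n`, the complement of `B(n-1)` has exactly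
one infinite connected component. -/
def OneEnded (S : Finset G) : Prop :=
  ∀ n : ℕ, ∃! C : ((cayleyGraph S).induce (outside S n)).ConnectedComponent, C.supp.Infinite

/-- Vertices of `S(n,r)^∞`: the elements of length between `n` and `n + r` that lie in an infinite
component of the complement of `B(n-1)`. -/
def sphereInf (S : Finset G) (n r : ℕ) : Set G :=
  {g | wordLength S g ≤ n + r ∧ ∃ h : g ∈ outside S n,
    (((cayleyGraph S).induce (outside S n)).connectedComponentMk ⟨g, h⟩).supp.Infinite}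

/-- The connection thickness: the least `r` for which `S(n,r)^∞` is connected
(`⊤` if there were none). -/
noncomputable def thickness (S : Finset G) (n : ℕ) : ℕ∞ :=
  sInf {x : ℕ∞ | ∃ r : ℕ, x = r ∧ ((cayleyGraph S).induce (sphereInf S n r)).Connected}

end defs

section general

variable {G : Type} [Group G] {S : Finset G}

open Classical in
/-- The symmetrised set. -/
noncomputable def sy (S : Finset G) : Finset G := insert 1 (S ∪ S.image (fun s => s⁻¹))

theorem mem_sy {s : G} : s ∈ sy S ↔ s = 1 ∨ s ∈ S ∨ s⁻¹ ∈ S := by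
  classical
  unfold sy
  rw [Finset.mem_insert, Finset.mem_union, Finset.mem_image]
  constructor
  · rintro (h | h | ⟨a, ha, rfl⟩)
    · exact Or.inl h
    · exact Or.inr (Or.inl h)
    · exact Or.inr (Or.inr (by simpa using ha))
  · rintro (h | h | h)
    · exact Or.inl h
    · exact Or.inr (Or.inl h)
    · exact Or.inr (Or.inr ⟨_, h, by simp⟩)

theorem one_mem_sy : (1 : G) ∈ sy S := mem_sy.2 (Or.inl rfl)

theorem sy_inv : ∀ s ∈ sy S, s⁻¹ ∈ sy S := by
  intro s hs
  rw [mem_sy] at hs ⊢
  rcases hs with h | h | h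
  · left; rw [h, inv_one]
  · right; right; rwa [inv_inv]
  · right; left; exact h

theorem sy_gen (hgen : Subgroup.closure (S : Set G) = ⊤) :
    Subgroup.closure (sy S : Set G) = ⊤ := by
  rw [eq_top_iff, ← hgen]
  apply Subgroup.closure_mono
  intro s hs
  have : s ∈ sy S := mem_sy.2 (Or.inr (Or.inl hs))
  exact this

theorem graph_eq : cayleyGraph S = Pool.Agent.Helper376.DL.Cay (sy S) := by
  ext a b
  unfold cayleyGraph
  rw [SimpleGraph.fromRel_adj, SimpleGraph.fromRel_adj]
  constructor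
  · rintro ⟨h, h1 | h1⟩
    · exact ⟨h, Or.inl (mem_sy.2 (Or.inr (Or.inl h1)))⟩
    · exact ⟨h, Or.inr (mem_sy.2 (Or.inr (Or.inl h1)))⟩
  · rintro ⟨h, h1 | h1⟩
    · rcases mem_sy.1 h1 with h2 | h2 | h2
      · exact absurd (inv_mul_eq_one.1 h2) h
      · exact ⟨h, Or.inl h2⟩
      · refine ⟨h, Or.inr ?_⟩
        have e : (a⁻¹ * b)⁻¹ = b⁻¹ * a := by group
        rwa [e] at h2
    · rcases mem_sy.1 h1 with h2 | h2 | h2
      · exact absurd (inv_mul_eq_one.1 h2) (Ne.symm h)
      · exact ⟨h, Or.inr h2⟩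
      · refine ⟨h, Or.inl ?_⟩
        have e : (b⁻¹ * a)⁻¹ = a⁻¹ * b := by group
        rwa [e] at h2

theorem adj_iff {a b : G} : (cayleyGraph S).Adj a b ↔ a ≠ b ∧ a⁻¹ * b ∈ sy S := by
  rw [graph_eq]
  exact Pool.Agent.Helper376.DL.cay_adj_iff sy_inv

theorem wl_le_iff (hgen : Subgroup.closure (S : Set G) = ⊤) {g : G} {k : ℕ} :
    wordLength S g ≤ k ↔ g ∈ Ball (sy S : Set G) k := by
  unfold wordLength
  rw [graph_eq]
  exact dist_le_iff one_mem_sy sy_inv (sy_gen hgen)

theorem reach_of_joined {X : Set G} {g h : G} (hj : Joined (sy S : Set G) X g h) (hg : g ∈ X)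
    (hh : h ∈ X) : ((cayleyGraph S).induce X).Reachable ⟨g, hg⟩ ⟨h, hh⟩ := by
  induction hj with
  | refl => exact SimpleGraph.Reachable.refl _
  | @tail y z _ hstep ih =>
    obtain ⟨hy, hz, hs⟩ := hstep
    refine (ih hy).trans ?_
    by_cases e : y = z
    · subst e
      exact SimpleGraph.Reachable.refl _
    · apply SimpleGraph.Adj.reachable
      rw [SimpleGraph.induce_adj]
      exact adj_iff.2 ⟨e, hs⟩

theorem joined_of_reach {X : Set G} {g h : X}
    (hr : ((cayleyGraph S).induce X).Reachable g h) : Joined (sy S : Set G) X g h := by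
  obtain ⟨p⟩ := hr
  induction p with
  | nil => exact ReflTransGen.refl
  | @cons u v w hadj p ih =>
    refine ReflTransGen.head ⟨u.2, v.2, ?_⟩ ih
    rw [SimpleGraph.induce_adj] at hadj
    exact (adj_iff.1 hadj).2

/-- Descending along a geodesic. -/
theorem descend (hgen : Subgroup.closure (S : Set G) = ⊤) {n : ℕ} (x : G)
    (hx : n ≤ wordLength S x) : ∃ y, wordLength S y = n ∧
      Joined (sy S : Set G) {g | n ≤ wordLength S g ∧ wordLength S g ≤ wordLength S x} y x := by
  obtain ⟨k, hk⟩ : ∃ k, wordLength S x = n + k := ⟨wordLength S x - n, by omega⟩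
  induction k generalizing x with
  | zero => exact ⟨x, by omega, ReflTransGen.refl⟩
  | succ k ih =>
    have h1 : x ∈ Ball (sy S : Set G) (n + k + 1) := (wl_le_iff hgen).1 (by omega)
    obtain ⟨x', hx', s, hs, rfl⟩ := h1
    have h2 : wordLength S x' ≤ n + k := (wl_le_iff hgen).2 hx'
    have h3 : wordLength S x' = n + k := by
      by_contra hne
      have h4 : wordLength S x' ≤ n + k - 1 := by omega
      have h5 : n + k ≠ 0 := by omega
      have h6 : wordLength S (x' * s) ≤ n + k - 1 + 1 :=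
        (wl_le_iff hgen).2 (ball_succ ((wl_le_iff hgen).1 h4) hs)
      omega
    obtain ⟨y, hy, hj⟩ := ih x' (by omega) h3
    refine ⟨y, hy, (hj.mono ?_).trans (Joined.single ?_ ?_ ?_)⟩
    · rintro g ⟨hg1, hg2⟩
      exact ⟨hg1, by omega⟩
    · exact ⟨by omega, by omega⟩
    · exact ⟨by omega, le_rfl⟩
    · simpa using hs

/-- Sanity check: the infinite part of a sphere is never empty, so connected and preconnected
mean the same for it. -/
theorem sphereInf_nonempty (hgen : Subgroup.closure (S : Set G) = ⊤) (hS : OneEnded S)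
    (n r : ℕ) : (sphereInf S n r).Nonempty := by
  obtain ⟨C, hC, _⟩ := hS n
  obtain ⟨g, hg⟩ := hC.nonempty
  obtain ⟨y, hy, hj⟩ := descend hgen g.1 g.2
  have hyo : y ∈ outside S n := hy.ge
  have hr := reach_of_joined (hj.mono (fun _ h => h.1)) hyo g.2
  have hmk : ((cayleyGraph S).induce (outside S n)).connectedComponentMk ⟨y, hyo⟩ = C := by
    rw [← (SimpleGraph.ConnectedComponent.mem_supp_iff C g).1 hg]
    exact SimpleGraph.ConnectedComponent.eq.2 hr
  exact ⟨y, by omega, hyo, by rw [hmk]; exact hC⟩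

/-- Membership in the infinite part of a sphere. -/
theorem mem_sphere_of_joined {n r : ℕ} {y : G} (hy : wordLength S y = n)
    (hinf : {x | Joined (sy S : Set G) (outside S n) y x}.Infinite) : y ∈ sphereInf S n r := by
  refine ⟨by omega, hy.ge, ?_⟩
  intro hfin
  apply hinf
  refine ((hfin.image Subtype.val).union (Set.finite_singleton y)).subset ?_
  intro x hx
  by_cases e : y = x
  · right; exact e.symm
  · left
    have hxo : x ∈ outside S n := by
      rcases ReflTransGen.cases_tail hx with h | ⟨z, _, _, h, _⟩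
      · exact absurd h.symm e
      · exact h
    refine ⟨⟨x, hxo⟩, ?_, rfl⟩
    rw [SimpleGraph.ConnectedComponent.mem_supp_iff, SimpleGraph.ConnectedComponent.eq]
    exact (reach_of_joined hx hy.ge hxo).symm

end general

section limit

variable {F : ℕ → ℕ → ℕ}

variable {S : Finset (GG F)}

/-- A common scale for the two generating sets. -/
theorem exists_l (hgen : Subgroup.closure (S : Set (GG F)) = ⊤) :
    ∃ l, 1 ≤ l ∧ SG (ga F) (gt F) ⊆ Ball (sy S : Set (GG F)) l ∧ (sy S : Set (GG F)) ⊆ Ball (SG (ga F) (gt F)) l := by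
  obtain ⟨l₁, h₁⟩ := exists_scale (SG_finite (ga F) (gt F)) (V := (sy S : Set (GG F))) one_mem_sy sy_inv
    (sy_gen hgen)
  obtain ⟨l₂, h₂⟩ := exists_scale (sy S).finite_toSet (V := SG (ga F) (gt F)) SG_one
    (fun _ h => SG_inv h) SG_gen
  exact ⟨max (max l₁ l₂) 1, le_max_right _ _,
    h₁ _ (le_trans (le_max_left _ _) (le_max_left _ _)),
    h₂ _ (le_trans (le_max_right _ _) (le_max_left _ _))⟩

theorem stay_out (hgen : Subgroup.closure (S : Set (GG F)) = ⊤) {n l : ℕ} {x v : (GG F)}
    (hx : n + l ≤ wordLength S x) (hv : v ∈ Ball (sy S : Set (GG F)) l) : x * v ∈ outside S n := by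
  by_contra hcon
  have h1 : ¬ n ≤ wordLength S (x * v) := hcon
  have h2 : wordLength S (x * v) ≤ n - 1 := by omega
  have h3 : x * v * v⁻¹ ∈ Ball (sy S : Set (GG F)) (n - 1 + l) :=
    ball_add ((wl_le_iff hgen).1 h2) (ball_inv' sy_inv hv)
  rw [mul_inv_cancel_right] at h3
  have h4 := (wl_le_iff hgen).2 h3
  omega

theorem one_ended (hgen : Subgroup.closure (S : Set (GG F)) = ⊤) : OneEnded S := by
  intro n
  obtain ⟨l, _, hl1, _⟩ := exists_l hgen
  obtain ⟨m, hm⟩ := finite_subset_box (a := (ga F)) (t := (gt F)) gen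
    (ball_fin (sy S).finite_toSet (n + l))
  have hout : ∀ x, x ∉ Box (ga F) (gt F) m → n + l ≤ wordLength S x := by
    intro x hx
    by_contra hcon
    exact hx (hm ((wl_le_iff hgen).1 (by omega)))
  have hout' : ∀ x, x ∉ Box (ga F) (gt F) m → x ∈ outside S n := by
    intro x hx
    have := hout x hx
    change n ≤ wordLength S x
    omega
  have hconn : ∀ x y, x ∉ Box (ga F) (gt F) m → y ∉ Box (ga F) (gt F) m →
      Joined (sy S : Set (GG F)) (outside S n) x y := by
    intro x y hx hy
    have h1 := box_connected (eta F) eta_ga eta_gt gen WG_finite lamp_inj m x y hx hy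
    refine Joined.refine (X := (Box (ga F) (gt F) m)ᶜ) one_mem_sy hl1 ?_ h1
    intro z hz v hv
    exact stay_out hgen (hout z hz) hv
  have := GG_infinite (F := F)
  have hinf : ((Box (ga F) (gt F) m)ᶜ : Set (GG F)).Infinite := (box_finite WG_finite m).infinite_compl
  obtain ⟨x₀, hx₀⟩ := hinf.nonempty
  refine ⟨((cayleyGraph S).induce (outside S n)).connectedComponentMk ⟨x₀, hout' x₀ hx₀⟩, ?_, ?_⟩
  · intro hfin
    apply hinf
    refine (hfin.image Subtype.val).subset ?_
    intro x hx
    refine ⟨⟨x, hout' x hx⟩, ?_, rfl⟩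
    rw [SimpleGraph.ConnectedComponent.mem_supp_iff, SimpleGraph.ConnectedComponent.eq]
    exact reach_of_joined (hconn x x₀ hx hx₀) _ _
  · intro C hC
    obtain ⟨x, hx, hxB⟩ : ∃ x : outside S n, x ∈ C.supp ∧ (x : (GG F)) ∉ Box (ga F) (gt F) m := by
      by_contra hcon
      push Not at hcon
      apply hC
      apply Set.Finite.of_finite_image (f := Subtype.val)
      · refine (box_finite WG_finite m).subset ?_
        rintro _ ⟨x, hx, rfl⟩
        exact hcon x hx
      · exact Subtype.val_injective.injOn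
    rw [SimpleGraph.ConnectedComponent.mem_supp_iff] at hx
    rw [← hx, SimpleGraph.ConnectedComponent.eq]
    exact reach_of_joined (hconn x x₀ hxB hx₀) _ _

/-- The rays. -/
theorem ray (hgen : Subgroup.closure (S : Set (GG F)) = ⊤) {n l : ℕ}
    (hl2 : (sy S : Set (GG F)) ⊆ Ball (SG (ga F) (gt F)) l)
    {j : ℤ} (hj : l * (n + l) ≤ j.natAbs) (hl : 1 ≤ l) :
    n + l ≤ wordLength S ((gt F) ^ j) := by
  by_contra hcon
  have h1 : wordLength S ((gt F) ^ j) ≤ n + l - 1 := by omega
  have h2 := gt_zpow_ball (ball_subset_ball hl2 ((wl_le_iff hgen).1 h1))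
  have h3 : l * (n + l - 1) < l * (n + l) := Nat.mul_lt_mul_of_pos_left (by omega) (by omega)
  omega

theorem ray_joined (hgen : Subgroup.closure (S : Set (GG F)) = ⊤) {n l : ℕ}
    (hl1 : SG (ga F) (gt F) ⊆ Ball (sy S : Set (GG F)) l) (hl2 : (sy S : Set (GG F)) ⊆ Ball (SG (ga F) (gt F)) l)
    (hl : 1 ≤ l) (e : ℤ) (he : e = 1 ∨ e = -1) (k : ℕ) :
    Joined (sy S : Set (GG F)) (outside S n) ((gt F) ^ (e * (l * (n + l) : ℕ)))
      ((gt F) ^ (e * (l * (n + l) + k : ℕ))) := by
  have h1 : Joined (SG (ga F) (gt F)) {g | n + l ≤ wordLength S g} ((gt F) ^ (e * (l * (n + l) : ℕ)))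
      ((gt F) ^ (e * (l * (n + l) + k : ℕ))) := by
    have habs : ∀ k : ℕ, l * (n + l) ≤ (e * (l * (n + l) + k : ℕ)).natAbs := by
      intro k
      rw [Int.natAbs_mul, Int.natAbs_natCast]
      rcases he with rfl | rfl <;> simp
    induction k with
    | zero => exact ReflTransGen.refl
    | succ k ih =>
      refine ih.trans (Joined.single ?_ ?_ ?_)
      · exact ray hgen hl2 (habs k) hl
      · exact ray hgen hl2 (habs (k + 1)) hl
      · rw [← zpow_neg, ← zpow_add]
        have e1 : -(e * ((l * (n + l) + k : ℕ) : ℤ)) + e * ((l * (n + l) + (k + 1) : ℕ) : ℤ) = e := by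
          push_cast; ring
        rw [e1]
        rcases he with rfl | rfl
        · rw [zpow_one]; simp [SG]
        · rw [zpow_neg_one]; simp [SG]
  refine Joined.refine (X := {g | n + l ≤ wordLength S g}) one_mem_sy hl1 ?_ h1
  intro z hz v hv
  exact stay_out hgen hz hv

/-- An element at level `n` of the infinite component below the ray, with a path to the ray. -/
theorem exists_level (hgen : Subgroup.closure (S : Set (GG F)) = ⊤) {n l : ℕ}
    (hl1 : SG (ga F) (gt F) ⊆ Ball (sy S : Set (GG F)) l) (hl2 : (sy S : Set (GG F)) ⊆ Ball (SG (ga F) (gt F)) l)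
    (hl : 1 ≤ l) (e : ℤ) (he : e = 1 ∨ e = -1) :
    ∃ y : (GG F), (∀ r, y ∈ sphereInf S n r) ∧
      Joined (sy S : Set (GG F)) {g | n ≤ wordLength S g ∧ wordLength S g ≤ l * (l * (n + l))} y
        ((gt F) ^ (e * (l * (n + l) : ℕ))) := by
  have habs : (e * (l * (n + l) : ℕ)).natAbs = l * (n + l) := by
    rw [Int.natAbs_mul, Int.natAbs_natCast]
    rcases he with rfl | rfl <;> simp
  have h0 := ray hgen hl2 habs.ge hl
  have hlen : wordLength S ((gt F) ^ (e * (l * (n + l) : ℕ))) ≤ l * (l * (n + l)) := by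
    rw [wl_le_iff hgen]
    apply ball_subset_ball hl1
    have : (gt F) ^ (e * ((l * (n + l) : ℕ) : ℤ)) ∈ Ball (SG (ga F) (gt F)) (e * (l * (n + l) : ℕ)).natAbs :=
      ball_q.2 ⟨_, ft_zpow_ball _, by rw [map_zpow]; rfl⟩
    rwa [habs] at this
  obtain ⟨y, hy, hj⟩ := descend hgen (n := n) ((gt F) ^ (e * (l * (n + l) : ℕ))) (by omega)
  have hj' : Joined (sy S : Set (GG F))
      {g | n ≤ wordLength S g ∧ wordLength S g ≤ l * (l * (n + l))} y
        ((gt F) ^ (e * (l * (n + l) : ℕ))) := by
    refine hj.mono ?_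
    rintro g ⟨hg1, hg2⟩
    exact ⟨hg1, le_trans hg2 hlen⟩
  refine ⟨y, fun r => ?_, hj'⟩
  apply mem_sphere_of_joined hy
  have hinf : (Set.range (fun k : ℕ => (gt F) ^ (e * (l * (n + l) + k : ℕ)))).Infinite := by
    apply Set.infinite_range_of_injective
    intro k k' hkk
    have h1 := gt_inj hkk
    rcases he with rfl | rfl
    · push_cast at h1; omega
    · push_cast at h1; omega
  refine hinf.mono ?_
  rintro _ ⟨k, rfl⟩
  refine (hj'.mono ?_).trans (ray_joined hgen hl1 hl2 hl e he k)
  rintro g ⟨hg1, _⟩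
  exact hg1


/-- The growth function of the construction. -/
def FF (f : ℕ → ℕ) (i r : ℕ) : ℕ :=
  (Finset.range (i + 1)).sup (fun l => 2 * (l * ((l * (r + l + 1) + i) + f (l * (r + l + 1) + i) +
    l * (l * ((l * (r + l + 1) + i) + l))) + l) + 1 + r)

end limit

section final

variable {f : ℕ → ℕ} {S : Finset (GG (FF f))}

/-- The spheres are far from connected. -/
theorem not_connected (hgen : Subgroup.closure (S : Set (GG (FF f))) = ⊤) (N : ℕ) :
    ∃ n : ℕ, N ≤ n ∧ ∀ r ≤ f n, ¬ ((cayleyGraph S).induce (sphereInf S n r)).Preconnected := by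
  obtain ⟨l, hl, hl1, hl2⟩ := exists_l hgen
  obtain ⟨i, hi⟩ : ∃ i, i = l + N := ⟨_, rfl⟩
  obtain ⟨d, hd⟩ : ∃ d, d = (St (FF f) i).rad := ⟨_, rfl⟩
  obtain ⟨n, hn⟩ : ∃ n, n = l * (d + l + 1) + i := ⟨_, rfl⟩
  obtain ⟨R, hR⟩ : ∃ R, R = f n := ⟨_, rfl⟩
  obtain ⟨J, hJ⟩ : ∃ J, J = l * (n + l) := ⟨_, rfl⟩
  obtain ⟨M, hM⟩ : ∃ M, M = n + R + l * J := ⟨_, rfl⟩
  obtain ⟨Rb, hRb⟩ : ∃ Rb, Rb = l * M + l := ⟨_, rfl⟩
  have hbig : 2 * Rb + 1 + d ≤ Rd (FF f) i := by
    refine le_trans ?_ (Rd_big i)
    rw [← hd]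
    have h1 : 2 * Rb + 1 + d ≤ FF f i d := by
      unfold FF
      have h2 : l ∈ Finset.range (i + 1) := by rw [Finset.mem_range]; omega
      refine le_trans (le_of_eq ?_) (Finset.le_sup (f := fun l => 2 * (l * ((l * (d + l + 1) + i) +
        f (l * (d + l + 1) + i) + l * (l * ((l * (d + l + 1) + i) + l))) + l) + 1 + d) h2)
      rw [hRb, hM, hJ, hR, hn]
    unfold big
    omega
  refine ⟨n, by omega, fun r hr hcon => ?_⟩
  rw [← hR] at hr
  obtain ⟨x, hx, hxj⟩ := exists_level hgen (n := n) hl1 hl2 hl 1 (Or.inl rfl)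
  obtain ⟨y, hy, hyj⟩ := exists_level hgen (n := n) hl1 hl2 hl (-1) (Or.inr rfl)
  rw [← hJ] at hxj hyj
  have hxy := joined_of_reach (hcon ⟨x, hx r⟩ ⟨y, hy r⟩)
  have hpath : Joined (sy S : Set (GG (FF f))) {g | n ≤ wordLength S g ∧ wordLength S g ≤ M}
      ((gt (FF f)) ^ (J : ℤ)) ((gt (FF f)) ^ (-(J : ℤ))) := by
    rw [one_mul] at hxj
    rw [neg_one_mul] at hyj
    refine ((Pool.Agent.Helper376.Lac.Joined.symm sy_inv (hxj.mono ?_)).trans
      (hxy.mono ?_)).trans (hyj.mono ?_)
    · rintro g ⟨h1, h2⟩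
      exact ⟨h1, by omega⟩
    · rintro g ⟨h1, h2, _⟩
      exact ⟨h2, by omega⟩
    · rintro g ⟨h1, h2⟩
      exact ⟨h1, by omega⟩
  have hJ1 : 1 ≤ J := by rw [hJ]; exact Nat.mul_pos (by omega) (by omega)
  have hlJ : J ≤ l * J := Nat.le_mul_of_pos_left _ (by omega)
  have hlM : M ≤ l * M := Nat.le_mul_of_pos_left _ (by omega)
  refine separation (i := i) (Rb := Rb) (J := J)
    (X := {g | g ∈ Ball (SG (ga (FF f)) (gt (FF f))) Rb ∧
      g ∉ Ball (SG (ga (FF f)) (gt (FF f))) (St (FF f) i).rad}) hJ1 (by omega)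
    (by omega) (by omega) (fun g hg => hg.1) (fun g hg => hg.2) ?_
  refine Joined.refine (X := {g | n ≤ wordLength S g ∧ wordLength S g ≤ M}) SG_one hl2 ?_ hpath
  rintro z ⟨hz1, hz2⟩ v hv
  constructor
  · rw [hRb]
    exact ball_add (ball_subset_ball hl2 ((wl_le_iff hgen).1 hz2)) hv
  · intro hcon2
    rw [← hd] at hcon2
    have h1 : z * v * v⁻¹ ∈ Ball (SG (ga (FF f)) (gt (FF f))) (d + l) :=
      ball_add hcon2 (ball_inv' (fun _ h => SG_inv h) hv)
    rw [mul_inv_cancel_right] at h1
    have h2 := (wl_le_iff hgen).2 (ball_subset_ball hl1 h1)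
    have h3 : l * (d + l) < l * (d + l + 1) := Nat.mul_lt_mul_of_pos_left (by omega) (by omega)
    omega

theorem thickness_gt (hgen : Subgroup.closure (S : Set (GG (FF f))) = ⊤) (N : ℕ) :
    ∃ n : ℕ, N ≤ n ∧ (f n : ℕ∞) < thickness S n := by
  obtain ⟨n, hnN, hn⟩ := not_connected hgen N
  refine ⟨n, hnN, ?_⟩
  by_contra hcon
  push Not at hcon
  unfold thickness at hcon
  have h2 : sInf {x : ℕ∞ | ∃ r : ℕ, x = r ∧
      ((cayleyGraph S).induce (sphereInf S n r)).Connected} < (f n + 1 : ℕ) :=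
    lt_of_le_of_lt hcon (by exact_mod_cast Nat.lt_succ_self (f n))
  obtain ⟨x, ⟨r, rfl, hr⟩, hlt⟩ := sInf_lt_iff.1 h2
  have h3 : r < f n + 1 := by exact_mod_cast hlt
  exact hn r (by omega) hr.preconnected

theorem ker_locally_finite (T : Set (GG (FF f))) (hT : T.Finite)
    (hTk : T ⊆ ((eta (FF f)).ker : Set (GG (FF f)))) :
    (Subgroup.closure T : Set (GG (FF f))).Finite := by
  have h1 : ∀ g ∈ T, ∃ k : ℕ, g ∈ WG (ga (FF f)) (gt (FF f)) k := by
    intro g hg
    obtain ⟨k, ν, hν, h, rfl⟩ := exists_decomp (a := ga (FF f)) (t := gt (FF f)) gen g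
    have h2 : eta (FF f) (ν * (gt (FF f)) ^ h) = 1 := hTk hg
    rw [map_mul, eta_WG (eta (FF f)) eta_ga hν, one_mul,
      Pool.Agent.Helper376.Lac.eta_zpow (eta (FF f)) eta_gt] at h2
    have h3 : h = 0 := by simpa using h2
    subst h3
    rw [zpow_zero, mul_one]
    exact ⟨k, hν⟩
  choose! k hk using h1
  obtain ⟨m, hm⟩ := (hT.image k).bddAbove
  have h4 : Subgroup.closure T ≤ WG (ga (FF f)) (gt (FF f)) m := by
    rw [Subgroup.closure_le]
    intro g hg
    exact WG_mono (hm ⟨g, hg, rfl⟩) (hk g hg)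
  exact (WG_finite (F := FF f) m).subset h4

end final

/-- For every function `f` there is an infinite group `G` generated by two elements, with a
homomorphism onto the integers whose kernel is locally finite, such that `G` is one-ended with
respect to every finite generating set, and for every finite generating set `S` of `G` there are
arbitrarily large `n` with `th(n) > f(n)`. -/
theorem result (f : ℕ → ℕ) : ∃ (G : Type) (_ : Group G), Infinite G ∧
    (∃ a t : G, Subgroup.closure {a, t} = ⊤) ∧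
    (∃ η : G →* Multiplicative ℤ, Function.Surjective η ∧
      ∀ T : Set G, T.Finite → T ⊆ (η.ker : Set G) → (Subgroup.closure T : Set G).Finite) ∧
    (∀ S : Finset G, Subgroup.closure (S : Set G) = ⊤ → OneEnded S) ∧
    ∀ S : Finset G, Subgroup.closure (S : Set G) = ⊤ →
      ∀ N : ℕ, ∃ n : ℕ, N ≤ n ∧ (f n : ℕ∞) < thickness S n := by
  refine ⟨GG (FF f), inferInstance, GG_infinite, ⟨ga (FF f), gt (FF f), gen⟩,
    ⟨eta (FF f), ?_, ker_locally_finite⟩, fun S hS => one_ended hS,
    fun S hS => thickness_gt hS⟩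
  intro z
  refine ⟨(gt (FF f)) ^ (Multiplicative.toAdd z), ?_⟩
  rw [Pool.Agent.Helper376.Lac.eta_zpow (eta (FF f)) eta_gt]
  rfl

end Pool.Agent.Results.MP_ed39a4_al.ThicknessAboveAnyFunction
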