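import Mathlib
import Pool.Agent.Helper376.Lac.Coarse
import Pool.Agent.Y975.RD.Lim

/-!
There is a finitely generated one-ended group all of whose Cayley graphs (with respect to finite
generating sets) have unbounded retreat depth.
-/

namespace Pool.Agent.Results.MP_ed39a4_al.UnboundedRetreatDepth

open Pool.Agent.Helper376.DL (Ball ball_succ ball_mono ball_add ball_mono_succ cay_connected
  dist_le_iff mem_ball_dist)
open Pool.Agent.Helper376.Lac (Joined ball_fin ball_inv' exists_mem_ball' exists_scale Joined.refine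
  SG SG_inv SG_one SG_finite Box box_connected finite_subset_box box_finite Joined.single
  Joined.mono)
open Pool.Agent.Y975.RD (GG GG_infinite ga gt gen eta eta_ga eta_gt WG_finite lamp_inj Kinf
  Kinf_pocket Gen SS BK ball_mk q q_surj Pocket)
open Relation

section defs

variable {G : Type} [Group G]

/-- The Cayley graph of `G` with respect to the finite set `S`: two distinct elements are adjacent
when they differ by right multiplication by an element of `S` or of its inverses. -/
def cayleyGraph (S : Finset G) : SimpleGraph G :=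
  SimpleGraph.fromRel (fun a b : G => a⁻¹ * b ∈ S)

/-- Word length: distance to `1` in the Cayley graph. -/
noncomputable def wordLength (S : Finset G) (g : G) : ℕ := (cayleyGraph S).dist 1 g

/-- The complement of the ball `B(n-1)`. -/
def outside (S : Finset G) (n : ℕ) : Set G := {g | n ≤ wordLength S g}

/-- One-endedness seen in the Cayley graph: for each `n`, the complement of `B(n-1)` has exactly
one infinite connected component. -/
def OneEnded (S : Finset G) : Prop :=
  ∀ n : ℕ, ∃! C : ((cayleyGraph S).induce (outside S n)).ConnectedComponent, C.supp.Infinite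

/-- A dead end: no neighbour has length one more. -/
def IsDeadEnd (S : Finset G) (g : G) : Prop :=
  ∀ h : G, (cayleyGraph S).Adj g h → wordLength S h ≠ wordLength S g + 1

/-- `g` lies in an infinite component of the complement of `B(n-1)`. -/
def InInfiniteComponent (S : Finset G) (n : ℕ) (g : G) : Prop :=
  ∃ h : g ∈ outside S n,
    (((cayleyGraph S).induce (outside S n)).connectedComponentMk ⟨g, h⟩).supp.Infinite

/-- The retreat depth of `g`: the least `d` such that `g` lies in the infinite component of the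
complement of `B(|g| - d - 1)` (`⊤` if there were none; see `retreatDepth_le`). -/
noncomputable def retreatDepth (S : Finset G) (g : G) : ℕ∞ :=
  sInf {x : ℕ∞ | ∃ d : ℕ, x = d ∧ InInfiniteComponent S (wordLength S g - d) g}

/-- Bounded retreat depth: the retreat depths of the dead ends are bounded. -/
def BoundedRetreatDepth (S : Finset G) : Prop :=
  ∃ R : ℕ, ∀ g : G, IsDeadEnd S g → retreatDepth S g ≤ R

end defs

section general

variable {G : Type} [Group G] {S : Finset G}

open Classical in
/-- The symmetrised set. -/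
noncomputable def sy (S : Finset G) : Finset G := insert 1 (S ∪ S.image (fun s => s⁻¹))

theorem mem_sy {s : G} : s ∈ sy S ↔ s = 1 ∨ s ∈ S ∨ s⁻¹ ∈ S := by
  classical
  unfold sy
  rw [Finset.mem_insert, Finset.mem_union, Finset.mem_image]
  constructor
  · rintro (h | h | ⟨a, ha, rfl⟩)
    · exact Or.inl h
    · exact Or.inr (Or.inl h)
    · exact Or.inr (Or.inr (by simpa using ha))
  · rintro (h | h | h)
    · exact Or.inl h
    · exact Or.inr (Or.inl h)
    · exact Or.inr (Or.inr ⟨_, h, by simp⟩)

theorem one_mem_sy : (1 : G) ∈ sy S := mem_sy.2 (Or.inl rfl)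

theorem sy_inv : ∀ s ∈ sy S, s⁻¹ ∈ sy S := by
  intro s hs
  rw [mem_sy] at hs ⊢
  rcases hs with h | h | h
  · left; rw [h, inv_one]
  · right; right; rwa [inv_inv]
  · right; left; exact h

theorem sy_gen (hgen : Subgroup.closure (S : Set G) = ⊤) :
    Subgroup.closure (sy S : Set G) = ⊤ := by
  rw [eq_top_iff, ← hgen]
  apply Subgroup.closure_mono
  intro s hs
  have : s ∈ sy S := mem_sy.2 (Or.inr (Or.inl hs))
  exact this

theorem graph_eq : cayleyGraph S = Pool.Agent.Helper376.DL.Cay (sy S) := by
  ext a b
  unfold cayleyGraph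
  rw [SimpleGraph.fromRel_adj, SimpleGraph.fromRel_adj]
  constructor
  · rintro ⟨h, h1 | h1⟩
    · exact ⟨h, Or.inl (mem_sy.2 (Or.inr (Or.inl h1)))⟩
    · exact ⟨h, Or.inr (mem_sy.2 (Or.inr (Or.inl h1)))⟩
  · rintro ⟨h, h1 | h1⟩
    · rcases mem_sy.1 h1 with h2 | h2 | h2
      · exact absurd (inv_mul_eq_one.1 h2) h
      · exact ⟨h, Or.inl h2⟩
      · refine ⟨h, Or.inr ?_⟩
        have e : (a⁻¹ * b)⁻¹ = b⁻¹ * a := by group
        rwa [e] at h2
    · rcases mem_sy.1 h1 with h2 | h2 | h2
      · exact absurd (inv_mul_eq_one.1 h2) (Ne.symm h)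
      · exact ⟨h, Or.inr h2⟩
      · refine ⟨h, Or.inl ?_⟩
        have e : (b⁻¹ * a)⁻¹ = a⁻¹ * b := by group
        rwa [e] at h2

theorem adj_iff {a b : G} : (cayleyGraph S).Adj a b ↔ a ≠ b ∧ a⁻¹ * b ∈ sy S := by
  rw [graph_eq]
  exact Pool.Agent.Helper376.DL.cay_adj_iff sy_inv

theorem wl_le_iff (hgen : Subgroup.closure (S : Set G) = ⊤) {g : G} {k : ℕ} :
    wordLength S g ≤ k ↔ g ∈ Ball (sy S : Set G) k := by
  unfold wordLength
  rw [graph_eq]
  exact dist_le_iff one_mem_sy sy_inv (sy_gen hgen)

theorem reach_of_joined {X : Set G} {g h : G} (hj : Joined (sy S : Set G) X g h) (hg : g ∈ X)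
    (hh : h ∈ X) : ((cayleyGraph S).induce X).Reachable ⟨g, hg⟩ ⟨h, hh⟩ := by
  induction hj with
  | refl => exact SimpleGraph.Reachable.refl _
  | @tail y z _ hstep ih =>
    obtain ⟨hy, hz, hs⟩ := hstep
    refine (ih hy).trans ?_
    by_cases e : y = z
    · subst e
      exact SimpleGraph.Reachable.refl _
    · apply SimpleGraph.Adj.reachable
      rw [SimpleGraph.induce_adj]
      exact adj_iff.2 ⟨e, hs⟩

theorem joined_of_reach {X : Set G} {g h : X}
    (hr : ((cayleyGraph S).induce X).Reachable g h) : Joined (sy S : Set G) X g h := by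
  obtain ⟨p⟩ := hr
  induction p with
  | nil => exact ReflTransGen.refl
  | @cons u v w hadj p ih =>
    refine ReflTransGen.head ⟨u.2, v.2, ?_⟩ ih
    rw [SimpleGraph.induce_adj] at hadj
    exact (adj_iff.1 hadj).2

/-- Sanity check: in an infinite group every element `g` has retreat depth at most `|g|`. -/
theorem retreatDepth_le [Infinite G] (hgen : Subgroup.closure (S : Set G) = ⊤) (g : G) :
    retreatDepth S g ≤ wordLength S g := by
  apply sInf_le
  refine ⟨wordLength S g, rfl, ?_⟩
  rw [Nat.sub_self]
  have hall : ∀ x : G, x ∈ outside S 0 := fun x => Nat.zero_le _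
  refine ⟨hall g, fun hfin => ?_⟩
  have huniv : (Set.univ : Set G).Infinite := Set.infinite_univ
  apply huniv
  refine (hfin.image Subtype.val).subset ?_
  intro x _
  refine ⟨⟨x, hall x⟩, ?_, rfl⟩
  rw [SimpleGraph.ConnectedComponent.mem_supp_iff, SimpleGraph.ConnectedComponent.eq]
  obtain ⟨k, hk⟩ := exists_mem_ball' sy_inv (sy_gen hgen) (x⁻¹ * g)
  have aux : ∀ k : ℕ, ∀ v ∈ Ball (sy S : Set G) k,
      Joined (sy S : Set G) (outside S 0) x (x * v) := by
    intro k
    induction k with
    | zero =>
      intro v hv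
      have : v = 1 := hv
      subst this
      rw [mul_one]
      exact ReflTransGen.refl
    | succ k ih =>
      rintro _ ⟨v, hv, s, hs, rfl⟩
      refine (ih v hv).tail ⟨hall _, hall _, ?_⟩
      have e : (x * v)⁻¹ * (x * (v * s)) = s := by group
      rw [e]; exact hs
  have h1 := aux k _ hk
  rw [mul_inv_cancel_left] at h1
  exact reach_of_joined h1 _ _

/-- A finite region closed outside the ball of radius `z`, and containing an element of length
more than `z + R + 1`, contains a dead end of retreat depth more than `R`. -/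
theorem exists_dead_end {P : Set G} (hP : P.Finite)
    {z R : ℕ} {p : G} (hp : p ∈ P) (hlen : z + R + 1 < wordLength S p)
    (hcl : ∀ x ∈ P, ∀ s ∈ sy S, x * s ∈ P ∨ wordLength S (x * s) ≤ z) :
    ∃ g, IsDeadEnd S g ∧ ¬ retreatDepth S g ≤ R := by
  obtain ⟨C, hC⟩ : ∃ C : Set G, C = {x | Joined (sy S : Set G) {g | z < wordLength S g} p x} :=
    ⟨_, rfl⟩
  have hCP : C ⊆ P := by
    intro x hx
    rw [hC] at hx
    have hx' : Joined (sy S : Set G) {g | z < wordLength S g} p x := hx
    induction hx' with
    | refl => exact hp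
    | @tail y w _ hstep ih =>
      obtain ⟨hy, hw, hs⟩ := hstep
      rcases hcl y (ih ‹_›) _ hs with h | h
      · rwa [mul_inv_cancel_left] at h
      · rw [mul_inv_cancel_left] at h
        have hw' : z < wordLength S w := hw
        omega
  have hCfin : C.Finite := hP.subset hCP
  have hpC : p ∈ C := by rw [hC]; exact ReflTransGen.refl
  obtain ⟨g, hgC, hmax⟩ := Set.exists_max_image C (wordLength S) hCfin ⟨p, hpC⟩
  have hg1 : z + R + 1 < wordLength S g := lt_of_lt_of_le hlen (hmax p hpC)
  have hgJ : Joined (sy S : Set G) {g | z < wordLength S g} p g := by rw [hC] at hgC; exact hgC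
  refine ⟨g, ?_, ?_⟩
  · intro h hadj hlen2
    have h1 : h ∈ C := by
      rw [hC]
      refine hgJ.trans (Joined.single ?_ ?_ (adj_iff.1 hadj).2)
      · change z < wordLength S g
        omega
      · change z < wordLength S h
        omega
    have h2 := hmax h h1
    omega
  · intro hle
    unfold retreatDepth at hle
    have h2 : sInf {x : ℕ∞ | ∃ d : ℕ, x = d ∧ InInfiniteComponent S (wordLength S g - d) g}
        < (R + 1 : ℕ) := lt_of_le_of_lt hle (by exact_mod_cast Nat.lt_succ_self R)
    obtain ⟨x, ⟨d, rfl, hd, hinf⟩, hlt⟩ := sInf_lt_iff.1 h2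
    have h3 : d < R + 1 := by exact_mod_cast hlt
    apply hinf
    apply Set.Finite.of_finite_image (f := Subtype.val)
    · refine hCfin.subset ?_
      rintro _ ⟨x, hx, rfl⟩
      rw [SimpleGraph.ConnectedComponent.mem_supp_iff, SimpleGraph.ConnectedComponent.eq] at hx
      have h4 := joined_of_reach hx.symm
      rw [hC]
      refine hgJ.trans (h4.mono ?_)
      intro y hy
      have hy' : wordLength S g - d ≤ wordLength S y := hy
      change z < wordLength S y
      omega
    · exact Subtype.val_injective.injOn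

end general

section limit

variable {S : Finset GG}

theorem SG_gen : Subgroup.closure (SG ga gt) = ⊤ := by
  rw [eq_top_iff, ← gen]
  apply Subgroup.closure_mono
  rintro x (rfl | hx)
  · right; left; rfl
  · rw [Set.mem_singleton_iff] at hx
    subst hx
    right; right; right; left; rfl

/-- A common scale for the two generating sets. -/
theorem exists_l (hgen : Subgroup.closure (S : Set GG) = ⊤) :
    ∃ l, SG ga gt ⊆ Ball (sy S : Set GG) l := by
  obtain ⟨l₁, h₁⟩ := exists_scale (SG_finite ga gt) (V := (sy S : Set GG)) one_mem_sy sy_inv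
    (sy_gen hgen)
  exact ⟨l₁, h₁ _ le_rfl⟩

theorem stay_out (hgen : Subgroup.closure (S : Set GG) = ⊤) {n l : ℕ} {x v : GG}
    (hx : n + l ≤ wordLength S x) (hv : v ∈ Ball (sy S : Set GG) l) : x * v ∈ outside S n := by
  by_contra hcon
  have h1 : ¬ n ≤ wordLength S (x * v) := hcon
  have h2 : wordLength S (x * v) ≤ n - 1 := by omega
  have h3 : x * v * v⁻¹ ∈ Ball (sy S : Set GG) (n - 1 + l) :=
    ball_add ((wl_le_iff hgen).1 h2) (ball_inv' sy_inv hv)
  rw [mul_inv_cancel_right] at h3
  have h4 := (wl_le_iff hgen).2 h3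
  omega

theorem one_ended (hgen : Subgroup.closure (S : Set GG) = ⊤) : OneEnded S := by
  intro n
  obtain ⟨l, hl1⟩ := exists_l hgen
  obtain ⟨m, hm⟩ := finite_subset_box (a := ga) (t := gt) gen
    (ball_fin (sy S).finite_toSet (n + l))
  have hout : ∀ x, x ∉ Box ga gt m → n + l ≤ wordLength S x := by
    intro x hx
    by_contra hcon
    exact hx (hm ((wl_le_iff hgen).1 (by omega)))
  have hout' : ∀ x, x ∉ Box ga gt m → x ∈ outside S n := by
    intro x hx
    have := hout x hx
    change n ≤ wordLength S x
    omega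
  have hconn : ∀ x y, x ∉ Box ga gt m → y ∉ Box ga gt m →
      Joined (sy S : Set GG) (outside S n) x y := by
    intro x y hx hy
    have h1 := box_connected eta eta_ga eta_gt gen WG_finite lamp_inj m x y hx hy
    refine Joined.refine (X := (Box ga gt m)ᶜ) one_mem_sy hl1 ?_ h1
    intro z hz v hv
    exact stay_out hgen (hout z hz) hv
  have := GG_infinite
  have hinf : ((Box ga gt m)ᶜ : Set GG).Infinite := (box_finite WG_finite m).infinite_compl
  obtain ⟨x₀, hx₀⟩ := hinf.nonempty
  refine ⟨((cayleyGraph S).induce (outside S n)).connectedComponentMk ⟨x₀, hout' x₀ hx₀⟩, ?_, ?_⟩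
  · intro hfin
    apply hinf
    refine (hfin.image Subtype.val).subset ?_
    intro x hx
    refine ⟨⟨x, hout' x hx⟩, ?_, rfl⟩
    rw [SimpleGraph.ConnectedComponent.mem_supp_iff, SimpleGraph.ConnectedComponent.eq]
    exact reach_of_joined (hconn x x₀ hx hx₀) _ _
  · intro C hC
    obtain ⟨x, hx, hxB⟩ : ∃ x : outside S n, x ∈ C.supp ∧ (x : GG) ∉ Box ga gt m := by
      by_contra hcon
      push Not at hcon
      apply hC
      apply Set.Finite.of_finite_image (f := Subtype.val)
      · refine (box_finite WG_finite m).subset ?_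
        rintro _ ⟨x, hx, rfl⟩
        exact hcon x hx
      · exact Subtype.val_injective.injOn
    rw [SimpleGraph.ConnectedComponent.mem_supp_iff] at hx
    rw [← hx, SimpleGraph.ConnectedComponent.eq]
    exact reach_of_joined (hconn x x₀ hxB hx₀) _ _

/-- Lifting a finite subset of the limit group to the free group. -/
theorem exists_lift (S : Finset GG) : ∃ T : Finset Pool.Agent.Y975.RD.F,
    q '' SS T = (sy S : Set GG) := by
  classical
  choose σ hσ using q_surj
  refine ⟨S.image σ, ?_⟩
  ext g
  constructor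
  · rintro ⟨x, hx, rfl⟩
    have hx' : q x ∈ sy S := by
      rw [mem_sy]
      rcases hx with h | h | h
      · left; rw [h, map_one]
      · right; left
        obtain ⟨s, hs, rfl⟩ := Finset.mem_image.1 h
        rwa [hσ]
      · right; right
        obtain ⟨s, hs, h2⟩ := Finset.mem_image.1 h
        rw [← map_inv, ← h2, hσ]
        exact hs
    exact hx'
  · intro hg
    have hg' : g ∈ sy S := hg
    rw [mem_sy] at hg'
    rcases hg' with h | h | h
    · exact ⟨1, Or.inl rfl, by rw [map_one, h]⟩
    · exact ⟨σ g, Or.inr (Or.inl (Finset.mem_image_of_mem _ h)), hσ g⟩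
    · refine ⟨(σ g⁻¹)⁻¹, Or.inr (Or.inr ?_), ?_⟩
      · rw [inv_inv]
        exact Finset.mem_image_of_mem _ h
      · rw [map_inv, hσ, inv_inv]

theorem unbounded (hgen : Subgroup.closure (S : Set GG) = ⊤) : ¬ BoundedRetreatDepth S := by
  rintro ⟨R, hR⟩
  obtain ⟨T, hT⟩ := exists_lift S
  have hball : ∀ (w : Pool.Agent.Y975.RD.F) (n : ℕ), wordLength S (q w) ≤ n ↔
      BK Kinf (SS T) w n := by
    intro w n
    rw [wl_le_iff hgen, ← hT]
    exact ball_mk
  have hG : Gen Kinf (SS T) := by
    refine ⟨max (wordLength S ga) (wordLength S gt), ?_, ?_⟩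
    · exact (hball _ _).1 (le_max_left _ _)
    · exact (hball _ _).1 (le_max_right _ _)
  obtain ⟨R', z, X, hX, ⟨g0, hg0, hnot⟩, hcl⟩ := Kinf_pocket T (R + 1) hG
  have hfin : (q '' X : Set GG).Finite :=
    ((ball_fin (Pool.Agent.Y975.RD.SS_finite T) R').subset hX).image _
  obtain ⟨g, hg1, hg2⟩ := exists_dead_end (S := S) hfin (z := z) (R := R) (p := q g0) ⟨g0, hg0, rfl⟩
    (by
      have h1 : ¬ wordLength S (q g0) ≤ z + (R + 1) := fun h => hnot ((hball _ _).1 h)
      omega)
    (by
      rintro _ ⟨w, hw, rfl⟩ s hs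
      have hs' : s ∈ q '' SS T := by rw [hT]; exact hs
      obtain ⟨s, hs1, rfl⟩ := hs'
      rcases hcl w hw s hs1 with ⟨w', hw', hk⟩ | hk
      · left
        refine ⟨w', hw', ?_⟩
        have h1 : q ((w * s)⁻¹ * w') = 1 := Pool.Agent.Y975.RD.q_eq_one.2 hk
        rw [map_mul, map_inv, inv_mul_eq_one, map_mul] at h1
        exact h1.symm
      · right
        rw [← map_mul]
        exact (hball _ _).2 hk)
  exact hg2 (hR g hg1)

end limit

/-- There is a finitely generated infinite group, one-ended with respect to every finite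
generating set, every finite generating set of which has unbounded retreat depth. -/
theorem result : ∃ (G : Type) (_ : Group G), Group.FG G ∧ Infinite G ∧
    (∀ S : Finset G, Subgroup.closure (S : Set G) = ⊤ → OneEnded S) ∧
    ∀ S : Finset G, Subgroup.closure (S : Set G) = ⊤ → ¬ BoundedRetreatDepth S := by
  refine ⟨GG, inferInstance, ?_, GG_infinite, fun S hS => one_ended hS,
    fun S hS => unbounded hS⟩
  classical
  rw [Group.fg_iff]
  exact ⟨{ga, gt}, gen, Set.toFinite _⟩

end Pool.Agent.Results.MP_ed39a4_al.UnboundedRetreatDepth
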